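import Pool.Agent.PenroseShear.Defs

/-! Algebra of symmetric forms that annihilate a unit vector. -/

namespace Pool.Agent.PenroseShear

/-- cofactors -/
theorem cof_eq {a b c d e f x y z : ℝ} (hn : x ^ 2 + y ^ 2 + z ^ 2 = 1)
    (h0 : a * x + b * y + c * z = 0) (h1 : b * x + d * y + e * z = 0)
    (h2 : c * x + e * y + f * z = 0)
    (hdet : (a + x * x) * ((d + y * y) * (f + z * z) - (e + y * z) * (e + y * z))
      - (b + x * y) * ((b + x * y) * (f + z * z) - (e + y * z) * (c + x * z))
      + (c + x * z) * ((b + x * y) * (e + y * z) - (d + y * y) * (c + x * z)) = 1) :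
    (a * d - b * b) + (a * f - c * c) + (d * f - e * e) = 1 := by
  grind

theorem cof_entries {a b c d e f x y z : ℝ} (hn : x ^ 2 + y ^ 2 + z ^ 2 = 1)
    (h0 : a * x + b * y + c * z = 0) (h1 : b * x + d * y + e * z = 0)
    (h2 : c * x + e * y + f * z = 0)
    (he : (a * d - b * b) + (a * f - c * c) + (d * f - e * e) = 1) :
    d * f - e * e = x * x ∧ a * f - c * c = y * y ∧ a * d - b * b = z * z ∧
    c * e - b * f = x * y ∧ b * e - c * d = x * z ∧ b * c - a * e = y * z := by
  refine ⟨?_, ?_, ?_, ?_, ?_, ?_⟩ <;> grind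

end Pool.Agent.PenroseShear
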