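import Pool.Agent.PenroseShear.Main

/-! The intersection of the slice with a null cone. -/

open MeasureTheory Filter Topology Set Asymptotics

namespace Pool.Agent.PenroseShear

open Pool.Agent.PenroseSph Pool.Agent.PenroseSlice

open Pool.Agent.PenroseRound (gm AFSlice Bf ph ne_of_reg reg_eq memW cdU cdV hderU hderV ru ru_eq
  pt_eq_smul exists_level log_eq sph_of nu_sum)

/-- The algebra of the area form. -/
theorem algebra_area {a b n : Fin 3 → ℝ} {φ B : ℝ} {G : Fin 3 → Fin 3 → ℝ}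
    (s1 : G 1 0 = G 0 1) (s2 : G 2 0 = G 0 2) (s3 : G 2 1 = G 1 2)
    (c0 : G 1 1 * G 2 2 - G 1 2 * G 1 2 = n 0 * n 0)
    (c1 : G 0 0 * G 2 2 - G 0 2 * G 0 2 = n 1 * n 1)
    (c2 : G 0 0 * G 1 1 - G 0 1 * G 0 1 = n 2 * n 2)
    (c3 : G 0 2 * G 1 2 - G 0 1 * G 2 2 = n 0 * n 1)
    (c4 : G 0 1 * G 1 2 - G 0 2 * G 1 1 = n 0 * n 2)
    (c5 : G 0 1 * G 0 2 - G 0 0 * G 1 2 = n 1 * n 2)
    {M : Matrix (Fin 3) (Fin 3) ℝ} (hdet : M.det ≠ 0)
    (hM : ∀ i j, M i j = -(φ * (a i * b j + b i * a j)) / 2 + B * G i j) :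
    M.det * ∑ i, ∑ j, M⁻¹ i j * a i * a j = (B * ∑ i, n i * a i) ^ 2 := by
  have h1 : ∀ i j, M⁻¹ i j = M.det⁻¹ * M.adjugate i j := fun i j => by
    rw [Matrix.inv_def, Ring.inverse_eq_inv', Matrix.smul_apply, smul_eq_mul]
  have h2 : M.det * ∑ i, ∑ j, M⁻¹ i j * a i * a j = ∑ i, ∑ j, M.adjugate i j * a i * a j := by
    rw [Finset.mul_sum]
    refine Finset.sum_congr rfl fun i _ => ?_
    rw [Finset.mul_sum]
    refine Finset.sum_congr rfl fun j _ => ?_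
    rw [h1]
    field_simp
  rw [h2, Matrix.adjugate_fin_three]
  simp only [Fin.sum_univ_three, Matrix.of_apply, Matrix.cons_val', Matrix.cons_val_zero,
    Matrix.cons_val_one, Matrix.cons_val_fin_one, Fin.isValue, Matrix.cons_val, hM, s1, s2, s3]
  linear_combination B ^ 2 * (a 0 ^ 2 * c0 + a 1 ^ 2 * c1 + a 2 ^ 2 * c2
    + 2 * a 0 * a 1 * c3 + 2 * a 0 * a 2 * c4 + 2 * a 1 * a 2 * c5)

section

variable {W : Set (ℝ × ℝ)} {F : ℝ → ℝ → E3 → ℝ} {γ : ℝ → ℝ → E3 → Matrix (Fin 3) (Fin 3) ℝ}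
  {r : ℝ → ℝ → ℝ} {U V : E3 → ℝ}

theorem induced_apply (x : E3) (i j : Fin 3) : inducedMetric F γ r U V x i j =
    -(ph F U V x * (pd i U x * pd j V x + pd i V x * pd j U x)) / 2
      + Bf r U V x * γ (U x) (V x) (‖x‖⁻¹ • x) i j := rfl

theorem area_aux (hS : ExpandingSpacetime W F γ r) (hT : IsTwoEndedSlice W F γ r U V) {x : E3}
    (hx : x ∈ reg) {a b : Fin 3 → ℝ}
    (hM : ∀ i j, inducedMetric F γ r U V x i j = -(ph F U V x * (a i * b j + b i * a j)) / 2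
      + Bf r U V x * γ (U x) (V x) (‖x‖⁻¹ • x) i j) :
    (inducedMetric F γ r U V x).det * ∑ i, ∑ j, (inducedMetric F γ r U V x)⁻¹ i j * a i * a j
      = (Bf r U V x * ∑ i, x i / ‖x‖ * a i) ^ 2 := by
  have hdet := (hT.spacelike x (ne_of_reg hx)).det_pos.ne'
  obtain ⟨s1, s2, s3, n0, n1, n2, he, -⟩ :=
    gamma_facts hS (hT.mem x (ne_of_reg hx)) ⟨_, sph_of (ne_of_reg hx)⟩
  have hn := nu_sq ((0, ⟨_, sph_of (ne_of_reg hx)⟩) : ℝ × Sp)
  unfold nu at hn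
  simp only at hn s1 s2 s3 n0 n1 n2 he
  obtain ⟨c0, c1, c2, c3, c4, c5⟩ := cof_entries hn n0 n1 n2 he
  have hdir : ∀ i : Fin 3, (‖x‖⁻¹ • x : E3) i = x i / ‖x‖ := fun i => by
    rw [PiLp.smul_apply, smul_eq_mul, div_eq_mul_inv, mul_comm]
  have := algebra_area (a := a) (b := b) (n := fun i => (‖x‖⁻¹ • x : E3) i)
    (G := fun i j => γ (U x) (V x) (‖x‖⁻¹ • x) i j) s1 s2 s3 c0 c1 c2 c3 c4 c5 hdet hM
  rw [this]
  simp only [hdir]

theorem area_fin {x : E3} (hx : x ∈ reg) {ψ : E3 → ℝ} (ho : radialDeriv ψ x ≠ 0) {D : ℝ}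
    (hD : D = (Bf r U V x * ∑ i, x i / ‖x‖ * pd i ψ x) ^ 2) :
    Real.sqrt D / |radialDeriv ψ x| * ‖x‖ ^ 2 = r (U x) (V x) ^ 2 := by
  have h2 : (∑ i, x i / ‖x‖ * pd i ψ x) = radialDeriv ψ x := rfl
  rw [hD, h2, Real.sqrt_sq_eq_abs, abs_mul, mul_div_assoc, div_self (abs_pos.2 ho).ne',
    mul_one]
  unfold Bf
  have hn : ‖x‖ ≠ 0 := norm_ne_zero_iff.2 (ne_of_reg hx)
  rw [abs_of_nonneg (sq_nonneg _)]
  field_simp

theorem area_U (hS : ExpandingSpacetime W F γ r) (hT : IsTwoEndedSlice W F γ r U V) {x : E3}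
    (hx : x ∈ reg) :
    Real.sqrt ((inducedMetric F γ r U V x).det * ∑ i, ∑ j, (inducedMetric F γ r U V x)⁻¹ i j
      * pd i U x * pd j U x) / |radialDeriv U x| * ‖x‖ ^ 2 = r (U x) (V x) ^ 2 :=
  area_fin hx (hT.outward x (ne_of_reg hx)).1.ne
    (area_aux hS hT hx (a := fun i => pd i U x) (b := fun i => pd i V x)
      fun i j => induced_apply x i j)

theorem area_V (hS : ExpandingSpacetime W F γ r) (hT : IsTwoEndedSlice W F γ r U V) {x : E3}
    (hx : x ∈ reg) :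
    Real.sqrt ((inducedMetric F γ r U V x).det * ∑ i, ∑ j, (inducedMetric F γ r U V x)⁻¹ i j
      * pd i V x * pd j V x) / |radialDeriv V x| * ‖x‖ ^ 2 = r (U x) (V x) ^ 2 :=
  area_fin hx (hT.outward x (ne_of_reg hx)).2.ne'
    (area_aux hS hT hx (a := fun i => pd i V x) (b := fun i => pd i U x)
      fun i j => by rw [induced_apply]; ring)

theorem strictMono_V (hA : AFSlice W (ph F U V) r U V) (ω : Sp) :
    StrictMono fun t => V (pt t ω) := by
  refine strictMono_of_hasDerivAt_pos (f' := fun t => Real.exp t * ru V (t, ω))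
    (fun t => hderV hA t ω) fun t => ?_
  have ho := (hA.outward _ (pt_ne_zero t ω)).2
  rw [ru_eq]
  exact mul_pos (Real.exp_pos t) ho

theorem strictMono_U (hA : AFSlice W (ph F U V) r U V) (ω : Sp) :
    StrictMono fun t => -U (pt t ω) := by
  refine strictMono_of_hasDerivAt_pos (f' := fun t => -(Real.exp t * ru U (t, ω)))
    (fun t => (hderU hA t ω).neg) fun t => ?_
  have ho := (hA.outward _ (pt_ne_zero t ω)).1
  rw [ru_eq]
  have := mul_pos (Real.exp_pos t) (neg_pos.2 ho)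
  simp only
  linarith

theorem levelArea_le (hS : ExpandingSpacetime W F γ r) (hT : IsTwoEndedSlice W F γ r U V) {m : ℝ}
    {φ : E3 → ℝ} {τ : Sp → ℝ}
    (hφ : ∀ x ∈ reg, Real.sqrt ((inducedMetric F γ r U V x).det * ∑ i, ∑ j,
      (inducedMetric F γ r U V x)⁻¹ i j * pd i φ x * pd j φ x) / |radialDeriv φ x| * ‖x‖ ^ 2
        = r (U x) (V x) ^ 2)
    (hle : ∀ ω, r (U (pt (τ ω) ω)) (V (pt (τ ω) ω)) ≤ 2 * m) :
    Real.sqrt (levelArea (inducedMetric F γ r U V) φ (fun ω => Real.exp (τ ω))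
      / (16 * Real.pi)) ≤ m := by
  have hA := afSlice hS hT
  have hpos : ∀ ω, 0 < r (U (pt (τ ω) ω)) (V (pt (τ ω) ω)) := fun ω =>
    hS.r_pos _ _ (memW hA (pt_mem (τ ω) ω))
  have hint : levelArea (inducedMetric F γ r U V) φ (fun ω => Real.exp (τ ω))
      = ∫ ω, r (U (pt (τ ω) ω)) (V (pt (τ ω) ω)) ^ 2 ∂sph := by
    unfold levelArea
    refine integral_congr_ae (Eventually.of_forall fun ω => ?_)
    have h1 := hφ _ (pt_mem (τ ω) ω)
    rw [norm_pt] at h1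
    exact h1
  have : Nonempty Sp := (NormedSpace.sphere_nonempty.2 zero_le_one).to_subtype
  have hm0 : 0 ≤ m := by
    obtain ⟨ω⟩ := this
    linarith [hpos ω, hle ω]
  have hbound : ∫ ω, r (U (pt (τ ω) ω)) (V (pt (τ ω) ω)) ^ 2 ∂sph ≤ 16 * Real.pi * m ^ 2 := by
    have h2 : ∫ ω, r (U (pt (τ ω) ω)) (V (pt (τ ω) ω)) ^ 2 ∂sph ≤ ∫ _ : Sp, (2 * m) ^ 2 ∂sph := by
      refine integral_mono_of_nonneg (Eventually.of_forall fun ω => sq_nonneg _)
        (integrable_const _) (Eventually.of_forall fun ω => ?_)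
      exact pow_le_pow_left₀ (hpos ω).le (hle ω) 2
    rw [integral_const, sph_univ, smul_eq_mul] at h2
    linarith
  rw [hint]
  refine Real.sqrt_le_iff.2 ⟨hm0, ?_⟩
  rw [div_le_iff₀ (by positivity)]
  linarith

/-- The main theorem. -/
theorem penrose_shear (hS : ExpandingSpacetime W F γ r) (hT : IsTwoEndedSlice W F γ r U V)
    {m : ℝ} (hm : IsTotalMass (inducedMetric F γ r U V) m) :
    ∃ (φ : E3 → ℝ) (c : ℝ) (R : Metric.sphere (0 : E3) 1 → ℝ), (φ = U ∨ φ = V) ∧ Continuous R ∧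
      (∀ ω, 0 < R ω ∧ φ (R ω • (ω : E3)) = c ∧ ∀ ρ : ℝ, 0 < ρ → φ (ρ • (ω : E3)) = c → ρ = R ω) ∧
      Real.sqrt (levelArea (inducedMetric F γ r U V) φ R / (16 * Real.pi)) ≤ m := by
  have hA := afSlice hS hT
  obtain ⟨x0, hx0, hor, hr⟩ := exists_marginal hS hT hm
  have hbot : Tendsto Real.exp atBot (𝓝[>] 0) := Real.tendsto_exp_atBot_nhdsGT
  rcases hor with hz | hz
  · -- the cone `V = V x0`
    obtain ⟨τ, hτc, hτ⟩ := exists_level (cdV hA).continuousOn (strictMono_V hA)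
      (fun ω => (hT.V_inner ω).comp hbot) (fun ω => (hT.V_outer ω).comp Real.tendsto_exp_atTop)
      (V x0)
    refine ⟨V, V x0, fun ω => Real.exp (τ ω), Or.inr rfl, by fun_prop, fun ω =>
      ⟨Real.exp_pos _, hτ ω, fun ρ hρ h => log_eq (strictMono_V hA ω) hρ (h.trans (hτ ω).symm)⟩,
      levelArea_le hS hT (fun x hx => area_V hS hT hx) fun ω => ?_⟩
    refine le_trans ?_ hr
    have h1 := memW hA (pt_mem (τ ω) ω)
    rw [hτ ω] at h1 ⊢
    exact Pool.Agent.PenroseRound.r_le_of_dU_eq_zero (quot hS) (memW hA hx0) h1 hz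
  · -- the cone `U = U x0`
    obtain ⟨τ, hτc, hτ⟩ := exists_level (ψ := fun x => -U x) (cdU hA).continuousOn.neg
      (strictMono_U hA)
      (fun ω => tendsto_neg_atTop_atBot.comp ((hT.U_inner ω).comp hbot))
      (fun ω => tendsto_neg_atBot_atTop.comp ((hT.U_outer ω).comp Real.tendsto_exp_atTop))
      (-U x0)
    have hτ' : ∀ ω, U (pt (τ ω) ω) = U x0 := fun ω => neg_injective (hτ ω)
    refine ⟨U, U x0, fun ω => Real.exp (τ ω), Or.inl rfl, by fun_prop, fun ω =>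
      ⟨Real.exp_pos _, hτ' ω, fun ρ hρ h => log_eq (ψ := fun x => -U x) (strictMono_U hA ω) hρ
        (congrArg Neg.neg (h.trans (hτ' ω).symm))⟩,
      levelArea_le hS hT (fun x hx => area_U hS hT hx) fun ω => ?_⟩
    refine le_trans ?_ hr
    have h1 := memW hA (pt_mem (τ ω) ω)
    rw [hτ' ω] at h1 ⊢
    exact Pool.Agent.PenroseRound.r_le_of_dV_eq_zero (quot hS) (memW hA hx0) h1 hz

end

end Pool.Agent.PenroseShear
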