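import Pool.Agent.PenroseShear.Area

/-!
The Penrose inequality for slices without symmetries of spacetimes foliated by spheres of constant
null expansions.
-/

namespace Pool.Agent.Results.MP_ede089_mp.ConstantExpansionSlices

open Pool.Agent.PenroseSph Pool.Agent.PenroseSlice Pool.Agent.PenroseShear

/-- Let `W × S²`, with metric `-F(u,v,ω) du dv + r(u,v)² γ(u,v,ω)`, be a spacetime, where every
`γ(u,v,·)` is a metric on the sphere with the round area element, and let `q = mean(1/F)` satisfy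
`∂_u (q r_u) ≤ 0`, `∂_v (q r_v) ≤ 0` and `1 + 4 q (r r_uv + r_u r_v) ≥ 0`, as it does if
`T_uu ≥ 0`, `T_vv ≥ 0` and `T_uv ≥ 0`. Let `x ↦ (U x, V x, x/|x|)` be a two-ended spacelike slice,
without any symmetry, asymptotically flat at `|x| → ∞` with total mass `m` there. Then the slice
meets some null cone, `{u = c}` or `{v = c}`, in a surface `S = {R(ω) ω}` that every ray from the
origin meets exactly once, and `m ≥ sqrt (area(S) / 16 π)`. -/
theorem result (W : Set (ℝ × ℝ)) (F : ℝ → ℝ → E3 → ℝ)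
    (γ : ℝ → ℝ → E3 → Matrix (Fin 3) (Fin 3) ℝ) (r : ℝ → ℝ → ℝ) (U V : E3 → ℝ)
    (hS : ExpandingSpacetime W F γ r) (hT : IsTwoEndedSlice W F γ r U V)
    (m : ℝ) (hm : IsTotalMass (inducedMetric F γ r U V) m) :
    ∃ (φ : E3 → ℝ) (c : ℝ) (R : Metric.sphere (0 : E3) 1 → ℝ), (φ = U ∨ φ = V) ∧ Continuous R ∧
      (∀ ω, 0 < R ω ∧ φ (R ω • (ω : E3)) = c ∧
        ∀ ρ : ℝ, 0 < ρ → φ (ρ • (ω : E3)) = c → ρ = R ω) ∧
      Real.sqrt (levelArea (inducedMetric F γ r U V) φ R / (16 * Real.pi)) ≤ m :=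
  penrose_shear hS hT hm

end Pool.Agent.Results.MP_ede089_mp.ConstantExpansionSlices
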