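import Pool.Agent.PenroseSlice.Defs
import Pool.Agent.PenroseSph.MeanDefs

/-!
Slices of spacetimes foliated by spheres of constant null expansions.
-/

open MeasureTheory Filter Topology

namespace Pool.Agent.PenroseShear

open Pool.Agent.PenroseSph Pool.Agent.PenroseSlice

/-- The mean of `1/F(u,v,·)` over the unit sphere. -/
noncomputable def meanInv (F : ℝ → ℝ → E3 → ℝ) (u v : ℝ) : ℝ :=
  1 / (4 * Real.pi) * ∫ ω : Metric.sphere (0 : E3) 1, 1 / F u v ω ∂((volume : Measure E3).toSphere)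

/-- A spacetime `W × S²` with metric `-F(u,v,ω) du dv + r(u,v)² γ(u,v,ω)` in double null
coordinates `(u, v) ∈ W`, `ω ∈ S²`, where every `γ(u,v,·)` is a Riemannian metric on the unit
sphere with the area element of the round metric. Here `γ(u,v,ω)` is given as a symmetric
3x3 matrix that annihilates `ω` and is positive definite on the tangent plane, and the condition
on the area element is `det (γ + ω ωᵀ) = 1`. The null rays in `W` are intervals, and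
`q = mean(1/F)` satisfies `∂_u (q r_u) ≤ 0`, `∂_v (q r_v) ≤ 0` and
`1 + 4 q (r r_uv + r_u r_v) ≥ 0`. -/
structure ExpandingSpacetime (W : Set (ℝ × ℝ)) (F : ℝ → ℝ → E3 → ℝ)
    (γ : ℝ → ℝ → E3 → Matrix (Fin 3) (Fin 3) ℝ) (r : ℝ → ℝ → ℝ) : Prop where
  isOpen : IsOpen W
  convex_u : ∀ v, Set.OrdConnected {u | (u, v) ∈ W}
  convex_v : ∀ u, Set.OrdConnected {v | (u, v) ∈ W}
  F_pos : ∀ u v, (u, v) ∈ W → ∀ ω : Metric.sphere (0 : E3) 1, 0 < F u v ω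
  r_pos : ∀ u v, (u, v) ∈ W → 0 < r u v
  contDiff_F : ContDiffOn ℝ 1 (fun p : ℝ × ℝ × E3 => F p.1 p.2.1 (‖p.2.2‖⁻¹ • p.2.2))
    {p | (p.1, p.2.1) ∈ W ∧ p.2.2 ≠ 0}
  contDiff_γ : ∀ i j, ContDiffOn ℝ 1
    (fun p : ℝ × ℝ × E3 => γ p.1 p.2.1 (‖p.2.2‖⁻¹ • p.2.2) i j)
    {p | (p.1, p.2.1) ∈ W ∧ p.2.2 ≠ 0}
  contDiff_q : ContDiffOn ℝ 2 (fun p : ℝ × ℝ => meanInv F p.1 p.2) W
  contDiff_r : ContDiffOn ℝ 2 (fun p : ℝ × ℝ => r p.1 p.2) W
  γ_symm : ∀ u v, (u, v) ∈ W → ∀ ω : Metric.sphere (0 : E3) 1, (γ u v ω).IsSymm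
  γ_normal : ∀ u v, (u, v) ∈ W → ∀ ω : Metric.sphere (0 : E3) 1, ∀ i,
    ∑ j, γ u v ω i j * (ω : E3) j = 0
  γ_pos : ∀ u v, (u, v) ∈ W → ∀ ω : Metric.sphere (0 : E3) 1,
    (γ u v ω + Matrix.of fun i j => (ω : E3) i * (ω : E3) j).PosDef
  γ_det : ∀ u v, (u, v) ∈ W → ∀ ω : Metric.sphere (0 : E3) 1,
    (γ u v ω + Matrix.of fun i j => (ω : E3) i * (ω : E3) j).det = 1
  energy_uu : ∀ u v, (u, v) ∈ W → dU (fun a b => meanInv F a b * dU r a b) u v ≤ 0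
  energy_vv : ∀ u v, (u, v) ∈ W → dV (fun a b => meanInv F a b * dV r a b) u v ≤ 0
  energy_uv : ∀ u v, (u, v) ∈ W →
    0 ≤ 1 + 4 * meanInv F u v * (r u v * dU (dV r) u v + dU r u v * dV r u v)

/-- The metric induced on the hypersurface `x ↦ (U x, V x, x/|x|)` of the spacetime:
`g_ij = -F (∂_i U ∂_j V + ∂_i V ∂_j U)/2 + (r/|x|)² γ_ij`. -/
noncomputable def inducedMetric (F : ℝ → ℝ → E3 → ℝ)
    (γ : ℝ → ℝ → E3 → Matrix (Fin 3) (Fin 3) ℝ) (r : ℝ → ℝ → ℝ) (U V : E3 → ℝ) :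
    TensorField := fun x =>
  Matrix.of fun i j =>
    -(F (U x) (V x) (‖x‖⁻¹ • x) * (pd i U x * pd j V x + pd i V x * pd j U x)) / 2
      + (r (U x) (V x) / ‖x‖) ^ 2 * γ (U x) (V x) (‖x‖⁻¹ • x) i j

/-- The part of the induced metric that comes from the deviation of `γ` from the round metric:
`(r/|x|)² (γ_ij - (δ_ij - ν_i ν_j))`, `ν = x/|x|`. -/
noncomputable def roundDefect (γ : ℝ → ℝ → E3 → Matrix (Fin 3) (Fin 3) ℝ) (r : ℝ → ℝ → ℝ)
    (U V : E3 → ℝ) : TensorField := fun x =>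
  Matrix.of fun i j => (r (U x) (V x) / ‖x‖) ^ 2 * (γ (U x) (V x) (‖x‖⁻¹ • x) i j
    - ((if i = j then 1 else 0) - (x i / ‖x‖) * (x j / ‖x‖)))

/-- The ratio of `F` to its harmonic mean `1/q` over the sphere, at the points of the slice. -/
noncomputable def meanRatio (F : ℝ → ℝ → E3 → ℝ) (U V : E3 → ℝ) (x : E3) : ℝ :=
  F (U x) (V x) (‖x‖⁻¹ • x) * meanInv F (U x) (V x)

/-- A two-ended spacelike slice `x ↦ (U x, V x, x/|x|)`, `x ≠ 0`, of the spacetime. The special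
end is `|x| → ∞`, and the slice is asymptotically flat there; the deviation of `γ` from the round
metric decays like the metric itself. The ratio `κ` of `F` to its harmonic mean tends to `1`, and
the upper limit of the means of `|x| (1 - κ)` over the coordinate spheres is not positive (this
is automatic if `U` and `V` are radial functions near infinity). At both ends the double null
coordinates tend to infinity along every ray, and the area radius tends to infinity along the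
rays to the other end `x → 0`. -/
structure IsTwoEndedSlice (W : Set (ℝ × ℝ)) (F : ℝ → ℝ → E3 → ℝ)
    (γ : ℝ → ℝ → E3 → Matrix (Fin 3) (Fin 3) ℝ) (r : ℝ → ℝ → ℝ) (U V : E3 → ℝ) : Prop where
  contDiff_U : ContDiffOn ℝ 2 U {0}ᶜ
  contDiff_V : ContDiffOn ℝ 2 V {0}ᶜ
  mem : ∀ x : E3, x ≠ 0 → (U x, V x) ∈ W
  spacelike : ∀ x : E3, x ≠ 0 → (inducedMetric F γ r U V x).PosDef
  outward : ∀ x : E3, x ≠ 0 → radialDeriv U x < 0 ∧ 0 < radialDeriv V x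
  U_inner : ∀ ω : Metric.sphere (0 : E3) 1,
    Tendsto (fun ρ : ℝ => U (ρ • (ω : E3))) (𝓝[>] 0) atTop
  U_outer : ∀ ω : Metric.sphere (0 : E3) 1,
    Tendsto (fun ρ : ℝ => U (ρ • (ω : E3))) atTop atBot
  V_inner : ∀ ω : Metric.sphere (0 : E3) 1,
    Tendsto (fun ρ : ℝ => V (ρ • (ω : E3))) (𝓝[>] 0) atBot
  V_outer : ∀ ω : Metric.sphere (0 : E3) 1,
    Tendsto (fun ρ : ℝ => V (ρ • (ω : E3))) atTop atTop
  r_inner : ∀ ω : Metric.sphere (0 : E3) 1,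
    Tendsto (fun ρ : ℝ => r (U (ρ • (ω : E3))) (V (ρ • (ω : E3)))) (𝓝[>] 0) atTop
  decay : ∃ C R : ℝ, ∀ x : E3, R ≤ ‖x‖ → |normalRate r U V x| ≤ C / ‖x‖ ∧ ∀ i j,
    |inducedMetric F γ r U V x i j - (1 : Matrix (Fin 3) (Fin 3) ℝ) i j| ≤ C / ‖x‖ ∧
    |roundDefect γ r U V x i j| ≤ C / ‖x‖ ∧
    ∀ k, |pd k (fun y => inducedMetric F γ r U V y i j) x| ≤ C / ‖x‖ ^ 2 ∧
      |pd k (fun y => roundDefect γ r U V y i j) x| ≤ C / ‖x‖ ^ 2
  ratio_lim : ∀ ε : ℝ, 0 < ε → ∃ R : ℝ, ∀ x : E3, R ≤ ‖x‖ → |meanRatio F U V x - 1| ≤ ε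
  ratio_mean : ∀ ε : ℝ, 0 < ε → ∃ R : ℝ, ∀ ρ : ℝ, R ≤ ρ →
    sphereMean (fun x => ‖x‖ * (1 - meanRatio F U V x)) ρ ≤ ε

end Pool.Agent.PenroseShear
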