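import Pool.Agent.PenroseShear.Mass2

/-! The Penrose inequality. -/

open MeasureTheory Filter Topology Set Asymptotics

namespace Pool.Agent.PenroseShear

open Pool.Agent.PenroseSph Pool.Agent.PenroseSlice

open Pool.Agent.PenroseRound (gm AFSlice Bf b1 b1d Bd sr ru ph Mf ne_of_reg reg_eq memW Quot ms
  cdU cdV hderU hderV ru_eq pt_eq_smul hder_r)

section

variable {W : Set (ℝ × ℝ)} {F : ℝ → ℝ → E3 → ℝ} {γ : ℝ → ℝ → E3 → Matrix (Fin 3) (Fin 3) ℝ}
  {r : ℝ → ℝ → ℝ} {U V : E3 → ℝ}

theorem meanInv_eq (u v : ℝ) : meanInv F u v = mn fun ω => 1 / F u v ω := by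
  unfold meanInv mn
  rw [one_div]

theorem cont_F (hS : ExpandingSpacetime W F γ r) {u v : ℝ} (h : (u, v) ∈ W) :
    Continuous fun ω : Sp => F u v ω := by
  have h5 := hS.contDiff_F.continuousOn.comp_continuous
    (f := fun ω : Sp => (u, v, (ω : E3))) (by fun_prop)
    fun ω => ⟨h, Pool.Agent.PenroseRound.sp_ne_zero ω⟩
  refine h5.congr fun ω => ?_
  simp only [Function.comp]
  rw [Pool.Agent.PenroseRound.inv_norm_smul]

theorem meanInv_pos (hS : ExpandingSpacetime W F γ r) {u v : ℝ} (h : (u, v) ∈ W) :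
    0 < meanInv F u v := by
  have hc : Continuous fun ω : Sp => 1 / F u v ω :=
    continuous_const.div (cont_F hS h) fun ω => (hS.F_pos u v h ω).ne'
  have : Nonempty Sp := (NormedSpace.sphere_nonempty.2 zero_le_one).to_subtype
  obtain ⟨ω, -, hω⟩ := (isCompact_univ (X := Sp)).exists_isMinOn univ_nonempty hc.continuousOn
  rw [meanInv_eq]
  refine lt_of_lt_of_le (one_div_pos.2 (hS.F_pos u v h ω)) ?_
  rw [← mn_const (1 / F u v ω)]
  exact mn_mono (integrable_const _) (integrable_sph hc) fun ω' => hω (mem_univ ω')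

/-- the harmonic mean of `F` -/
noncomputable def Fb (F : ℝ → ℝ → E3 → ℝ) (u v : ℝ) : ℝ := 1 / meanInv F u v

theorem div_Fb (x u v : ℝ) : x / Fb F u v = meanInv F u v * x := by
  unfold Fb
  rw [div_div_eq_mul_div, div_one, mul_comm]

theorem quot (hS : ExpandingSpacetime W F γ r) : Quot W (Fb F) r where
  isOpen := hS.isOpen
  convex_u := hS.convex_u
  convex_v := hS.convex_v
  F_pos u v h := one_div_pos.2 (meanInv_pos hS h)
  r_pos := hS.r_pos
  contDiff_F := contDiffOn_const.div hS.contDiff_q fun p hp => (meanInv_pos hS hp).ne'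
  contDiff_r := hS.contDiff_r
  energy_uu u v h := by
    simp only [div_Fb]
    exact hS.energy_uu u v h
  energy_vv u v h := by
    simp only [div_Fb]
    exact hS.energy_vv u v h

theorem energy3 (hS : ExpandingSpacetime W F γ r) {u v : ℝ} (h : (u, v) ∈ W) :
    0 ≤ r u v * dU (dV r) u v + dU r u v * dV r u v + Fb F u v / 4 := by
  have h1 := hS.energy_uv u v h
  have h2 := meanInv_pos hS h
  have h3 : r u v * dU (dV r) u v + dU r u v * dV r u v + Fb F u v / 4
      = (1 + 4 * meanInv F u v * (r u v * dU (dV r) u v + dU r u v * dV r u v))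
        / (4 * meanInv F u v) := by
    unfold Fb
    field_simp
    ring
  rw [h3]
  positivity

/-- The averaged mass. -/
noncomputable def Mb (F : ℝ → ℝ → E3 → ℝ) (r : ℝ → ℝ → ℝ) (U V : E3 → ℝ) (x : E3) : ℝ :=
  ms (Fb F) r (U x) (V x)

theorem cont_Mb (hS : ExpandingSpacetime W F γ r) (hT : IsTwoEndedSlice W F γ r U V) :
    ContinuousOn (Mb F r U V) reg := by
  have hA := afSlice hS hT
  have h1 : ContinuousOn (fun p : ℝ × ℝ => ms (Fb F) r p.1 p.2) W := fun p hp =>
    (Pool.Agent.PenroseRound.diff_ms (quot hS) (u := p.1) (v := p.2)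
      hp).continuousAt.continuousWithinAt
  exact h1.comp ((cdU hA).continuousOn.prodMk (cdV hA).continuousOn) fun x hx => memW hA hx

/-- Monotonicity of the averaged mass along rays in the untrapped region. -/
theorem Mb_mono (hS : ExpandingSpacetime W F γ r) (hT : IsTwoEndedSlice W F γ r U V) {a b : ℝ}
    (hab : a ≤ b) (ω : Sp) (h : ∀ t, a < t → t < b → dU r (U (pt t ω)) (V (pt t ω)) ≤ 0 ∧
      0 ≤ dV r (U (pt t ω)) (V (pt t ω))) : Mb F r U V (pt a ω) ≤ Mb F r U V (pt b ω) := by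
  have hA := afSlice hS hT
  have hder : ∀ t, HasDerivAt (fun s => Mb F r U V (pt s ω))
      (dU (ms (Fb F) r) (U (pt t ω)) (V (pt t ω)) * (Real.exp t * ru U (t, ω))
        + dV (ms (Fb F) r) (U (pt t ω)) (V (pt t ω)) * (Real.exp t * ru V (t, ω))) t := fun t =>
    hasDerivAt_comp_curve (f := ms (Fb F) r)
      (Pool.Agent.PenroseRound.diff_ms (quot hS) (memW hA (pt_mem t ω))) (hderU hA t ω)
      (hderV hA t ω)
  have hmono : MonotoneOn (fun s => Mb F r U V (pt s ω)) (Icc a b) := by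
    refine monotoneOn_of_hasDerivWithinAt_nonneg (convex_Icc a b)
      (fun t _ => (hder t).continuousAt.continuousWithinAt)
      (fun t _ => (hder t).hasDerivWithinAt) ?_
    intro t ht
    rw [interior_Icc] at ht
    have ho := hT.outward _ (pt_ne_zero t ω)
    have ho1 : ru U (t, ω) < 0 := by rw [ru_eq]; exact ho.1
    have ho2 : 0 < ru V (t, ω) := by rw [ru_eq]; exact ho.2
    have hE := Real.exp_pos t
    exact Pool.Agent.PenroseRound.ms_deriv_nonneg (quot hS) (memW hA (pt_mem t ω))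
      (energy3 hS (memW hA (pt_mem t ω))) (h t ht.1 ht.2).1 (h t ht.1 ht.2).2
      (mul_nonpos_of_nonneg_of_nonpos hE.le ho1.le) (mul_nonneg hE.le ho2.le)
  exact hmono (left_mem_Icc.2 hab) (right_mem_Icc.2 hab) hab

theorem cont_ratio (hS : ExpandingSpacetime W F γ r) (hT : IsTwoEndedSlice W F γ r U V) :
    ContinuousOn (meanRatio F U V) reg := by
  have hA := afSlice hS hT
  have h1 : ContinuousOn (fun x => meanInv F (U x) (V x)) reg :=
    hS.contDiff_q.continuousOn.comp ((cdU hA).continuousOn.prodMk (cdV hA).continuousOn)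
      fun x hx => memW hA hx
  exact hA.cd_φ.continuousOn.mul h1

/-- the coefficient of the angular defect -/
noncomputable def cf (F : ℝ → ℝ → E3 → ℝ) (r : ℝ → ℝ → ℝ) (U V : E3 → ℝ) (p : ℝ × Sp) : ℝ :=
  Real.exp p.1 * (1 / 2 * (1 - b1 r U V p * ((b1 r U V p + b1d r U V p) ^ 2 - sr r U V p ^ 2)
    * (gA (Pool.Agent.PenroseRound.Gc (ph F U V) r U V) p)⁻¹))

theorem cf_O (hS : ExpandingSpacetime W F γ r) (hT : IsTwoEndedSlice W F γ r U V) :
    cf F r U V =O[li] fun _ => (1 : ℝ) := by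
  have hA := afSlice hS hT
  have hb := Pool.Agent.PenroseRound.b1_O hA
  have hbd := Pool.Agent.PenroseRound.b1d_O hA
  have hs := Pool.Agent.PenroseRound.sr_O hA
  have hG := Pool.Agent.PenroseRound.hG_O hA
  have hgA := gA_sub_one_O hG
  have hAi := gAinv_O hG
  have hb1 : (fun p => b1 r U V p) =O[li] fun _ => (1 : ℝ) :=
    (Pool.Agent.PenroseRound.tendsto_b1 hA).isBigO_one ℝ
  have hbd1 : (fun p => b1d r U V p) =O[li] fun _ => (1 : ℝ) := hbd.trans ee_O_one
  have hs1 : (fun p => sr r U V p) =O[li] fun _ => (1 : ℝ) := hs.trans ee_O_one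
  -- `n² - s² - 1`
  have hn : (fun p => (b1 r U V p - 1) + b1d r U V p) =O[li] ee := hb.add hbd
  have hn1 : (fun p => (b1 r U V p + b1d r U V p) + 1) =O[li] fun _ => (1 : ℝ) :=
    (hb1.add hbd1).add (isBigO_const_const (1 : ℝ) one_ne_zero li)
  have e1 : (fun p => (b1 r U V p + b1d r U V p) ^ 2 - sr r U V p ^ 2 - 1) =O[li] ee := by
    refine ((O_mul_one hn hn1).sub (O_mul_one hs hs1)).congr'
      (Eventually.of_forall fun p => ?_) EventuallyEq.rfl
    simp only
    ring
  have e2 : (fun p => b1 r U V p * ((b1 r U V p + b1d r U V p) ^ 2 - sr r U V p ^ 2) - 1)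
      =O[li] ee := by
    have h1 : (fun p => ((b1 r U V p + b1d r U V p) ^ 2 - sr r U V p ^ 2 - 1) * b1 r U V p)
        =O[li] ee := O_mul_one e1 hb1
    refine (h1.add hb).congr' (Eventually.of_forall fun p => ?_) EventuallyEq.rfl
    simp only
    ring
  have e3 : (fun p => 1 - b1 r U V p * ((b1 r U V p + b1d r U V p) ^ 2 - sr r U V p ^ 2)
      * (gA (Pool.Agent.PenroseRound.Gc (ph F U V) r U V) p)⁻¹) =O[li] ee := by
    refine (O_mul_one (hgA.sub e2) hAi).congr' (Eventually.of_forall fun p => ?_)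
      EventuallyEq.rfl
    have := (Pool.Agent.PenroseRound.gA_pos hA p).ne'
    simp only
    field_simp
    ring
  exact Pool.Agent.PenroseRound.exp_mul_O (e3.const_mul_left (1 / 2))

theorem mass_sub (hS : ExpandingSpacetime W F γ r) (hT : IsTwoEndedSlice W F γ r U V) (t : ℝ)
    (ω : Sp) : Mf (ph F U V) r U V (pt t ω) = Mb F r U V (pt t ω)
      + (cf F r U V (t, ω) - Real.exp t / 2) * (1 - meanRatio F U V (pt t ω)) := by
  have hA := afSlice hS hT
  set p : ℝ × Sp := (t, ω) with hp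
  have hφ := hA.φ_pos _ (pt_mem t ω)
  have hmem := memW hA (pt_mem t ω)
  have hq := meanInv_pos hS hmem
  have hgA := Pool.Agent.PenroseRound.gA_eq (φ := ph F U V) (r := r) (U := U) (V := V) p
  have hgp := Pool.Agent.PenroseRound.gA_pos hA p
  have ho := hT.outward _ (pt_ne_zero t ω)
  have ho1 : ru U p < 0 := by rw [ru_eq]; exact ho.1
  have ho2 : 0 < ru V p := by rw [ru_eq]; exact ho.2
  have hr : r (U (pt t ω)) (V (pt t ω)) = Real.exp t * b1 r U V p := by
    unfold b1
    have := (Real.exp_pos t).ne'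
    simp only [hp]
    field_simp
  have hn : b1 r U V p + b1d r U V p = dU r (U (pt t ω)) (V (pt t ω)) * ru U p
      + dV r (U (pt t ω)) (V (pt t ω)) * ru V p := by
    unfold b1d
    simp only [hp]
    ring
  have hs : sr r U V p = dV r (U (pt t ω)) (V (pt t ω)) * ru V p
      - dU r (U (pt t ω)) (V (pt t ω)) * ru U p := rfl
  have hratio : meanRatio F U V (pt t ω)
      = ph F U V (pt t ω) * meanInv F (U (pt t ω)) (V (pt t ω)) := rfl
  unfold cf
  rw [hn, hs, hratio, hgA]
  unfold Mb Mf ms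
  rw [hr, div_Fb]
  simp only [hp] at ho1 ho2 ⊢
  set ru' := dU r (U (pt t ω)) (V (pt t ω))
  set rv' := dV r (U (pt t ω)) (V (pt t ω))
  set α := ru U (t, ω)
  set β := ru V (t, ω)
  set φ := ph F U V (pt t ω)
  set q := meanInv F (U (pt t ω)) (V (pt t ω))
  have h1 : α ≠ 0 := ho1.ne
  have h2 : β ≠ 0 := ho2.ne'
  have h3 : φ ≠ 0 := hφ.ne'
  field_simp
  ring

/-- The mean of the pointwise mass is asymptotically at least the mean of the averaged mass. -/
theorem mean_Mf_ge (hS : ExpandingSpacetime W F γ r) (hT : IsTwoEndedSlice W F γ r U V) {δ : ℝ}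
    (hδ : 0 < δ) : ∃ t2 : ℝ, ∀ t, t2 ≤ t →
      (mn fun ω => Mb F r U V (pt t ω)) - δ ≤ mn fun ω => Mf (ph F U V) r U V (pt t ω) := by
  have hA := afSlice hS hT
  obtain ⟨K, hK⟩ := (cf_O hS hT).bound
  obtain ⟨t3, ht3⟩ := Pool.Agent.PenroseRound.exists_of_eventually_li hK
  set K' := |K| + 1 with hK'
  have hK'0 : 0 < K' := by positivity
  obtain ⟨R1, hR1⟩ := hT.ratio_lim (δ / (2 * K')) (by positivity)
  obtain ⟨R2, hR2⟩ := hT.ratio_mean δ hδ
  set T := max t3 (max (Real.log (max R1 1)) (Real.log (max R2 1))) with hTd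
  have hexp : ∀ t, T ≤ t → R1 ≤ Real.exp t ∧ R2 ≤ Real.exp t := by
    intro t ht
    have h1 : Real.log (max R1 1) ≤ t :=
      ((le_max_left _ _).trans (le_max_right _ _)).trans ht
    have h2 : Real.log (max R2 1) ≤ t :=
      ((le_max_right _ _).trans (le_max_right _ _)).trans ht
    have p1 : 0 < max R1 1 := lt_of_lt_of_le one_pos (le_max_right _ _)
    have p2 : 0 < max R2 1 := lt_of_lt_of_le one_pos (le_max_right _ _)
    exact ⟨(le_max_left _ _).trans ((Real.log_le_iff_le_exp p1).1 h1),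
      (le_max_left _ _).trans ((Real.log_le_iff_le_exp p2).1 h2)⟩
  refine ⟨T, fun t ht => ?_⟩
  have hmean := hR2 _ (hexp t ht).2
  have cMb := cont_comp_pt' (cont_Mb hS hT) t
  have cMf := cont_comp_pt' (Pool.Agent.PenroseRound.cont_M hA) t
  have cR := cont_comp_pt' (cont_ratio hS hT) t
  -- pointwise lower bound
  have hpt : ∀ ω : Sp, Mb F r U V (pt t ω) + ((-(1 / 2) * (Real.exp t
      * (1 - meanRatio F U V (pt t ω)))) - δ / 2) ≤ Mf (ph F U V) r U V (pt t ω) := by
    intro ω
    rw [mass_sub hS hT t ω]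
    have h1 : ‖cf F r U V (t, ω)‖ ≤ K * ‖(1 : ℝ)‖ := ht3 t ((le_max_left _ _).trans ht) ω
    rw [norm_one, mul_one, Real.norm_eq_abs] at h1
    have h2 : |meanRatio F U V (pt t ω) - 1| ≤ δ / (2 * K') :=
      hR1 _ (by rw [norm_pt]; exact (hexp t ht).1)
    have h3 : |cf F r U V (t, ω) * (1 - meanRatio F U V (pt t ω))| ≤ δ / 2 := by
      rw [abs_mul, abs_sub_comm]
      calc |cf F r U V (t, ω)| * |meanRatio F U V (pt t ω) - 1| ≤ K' * (δ / (2 * K')) := by
            refine mul_le_mul ?_ h2 (abs_nonneg _) hK'0.le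
            exact h1.trans ((le_abs_self K).trans (by rw [hK']; linarith))
        _ = δ / 2 := by field_simp
    have h4 := (abs_le.1 h3).1
    have h5 : (cf F r U V (t, ω) - Real.exp t / 2) * (1 - meanRatio F U V (pt t ω))
        = cf F r U V (t, ω) * (1 - meanRatio F U V (pt t ω))
          + -(1 / 2) * (Real.exp t * (1 - meanRatio F U V (pt t ω))) := by ring
    rw [h5]
    linarith
  have hsm : sphereMean (fun x => ‖x‖ * (1 - meanRatio F U V x)) (Real.exp t)
      = mn fun ω => Real.exp t * (1 - meanRatio F U V (pt t ω)) := by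
    unfold sphereMean mn
    congr 1
    refine integral_congr_ae (Eventually.of_forall fun ω => ?_)
    have h1 : Real.exp t • (ω : E3) = pt t ω := rfl
    simp only [h1, norm_pt]
  rw [hsm] at hmean
  have c1 : Continuous fun ω : Sp => Real.exp t * (1 - meanRatio F U V (pt t ω)) := by fun_prop
  have h6 : (mn fun ω => Mb F r U V (pt t ω) + ((-(1 / 2) * (Real.exp t
      * (1 - meanRatio F U V (pt t ω)))) - δ / 2))
      = (mn fun ω => Mb F r U V (pt t ω)) + (-(1 / 2) * (mn fun ω => Real.exp t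
        * (1 - meanRatio F U V (pt t ω))) - δ / 2) := by
    rw [mn_add (integrable_sph cMb) (integrable_sph (by fun_prop)),
      mn_sub (integrable_sph (by fun_prop)) (integrable_const _), mn_mul, mn_const]
  have h7 : (mn fun ω => Mb F r U V (pt t ω) + ((-(1 / 2) * (Real.exp t
      * (1 - meanRatio F U V (pt t ω)))) - δ / 2))
      ≤ mn fun ω => Mf (ph F U V) r U V (pt t ω) :=
    mn_mono (integrable_sph (by fun_prop)) (integrable_sph cMf) hpt
  rw [h6] at h7
  linarith

/-- An asymptotic lower bound of the means of the mass function bounds the total mass. -/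
theorem const_le_mass_mean {φ : E3 → ℝ} (hT : AFSlice W φ r U V) {m : ℝ}
    (hm : IsTotalMass (gm φ r U V) m) {t1 μ : ℝ}
    (hmono : ∀ t, t1 ≤ t → μ ≤ mn fun ω => Mf φ r U V (pt t ω)) : μ ≤ m := by
  by_contra hcon
  push Not at hcon
  set ε := (μ - m) / 4 with hε
  have hε0 : 0 < ε := by rw [hε]; linarith
  obtain ⟨C, t2, hC⟩ := Pool.Agent.PenroseRound.bdd_Ef hT
  have hm' : Tendsto (massIntegral (gm φ r U V)) atTop (𝓝 m) := hm
  have hmt : Tendsto (fun t => massIntegral (gm φ r U V) (Real.exp t)) atTop (𝓝 m) :=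
    hm'.comp Real.tendsto_exp_atTop
  have h1 : ∀ᶠ t in atTop, massIntegral (gm φ r U V) (Real.exp t) < m + ε :=
    hmt.eventually_lt_const (by linarith)
  have h2 : ∀ᶠ t in atTop, Pool.Agent.PenroseRound.Rf φ r U V t < ε :=
    (Pool.Agent.PenroseRound.tendsto_Rf hT).eventually_lt_const hε0
  obtain ⟨t3, ht3⟩ := eventually_atTop.1 (h1.and h2)
  set T := max t1 (max t2 t3) with hTdef
  have hT1 : t1 ≤ T := le_max_left _ _
  have hT2 : t2 ≤ T := (le_max_left _ _).trans (le_max_right _ _)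
  have hT3 : t3 ≤ T := (le_max_right _ _).trans (le_max_right _ _)
  have hder := fun t => (Pool.Agent.PenroseRound.hder_E hT t)
  have hlow : ∀ t, T ≤ t → 2 * ε ≤ Real.exp t * (1 / 4)
      * (mn fun ω => Pool.Agent.PenroseRound.Df φ r U V (pt t ω))
      + Real.exp t * (1 / 4) * mn fun ω => Real.exp t
        * rd (Pool.Agent.PenroseRound.Df φ r U V) (pt t ω) := by
    intro t ht
    have e1 := Pool.Agent.PenroseRound.mean_eq hT t
    have e2 := hmono t (hT1.trans ht)
    have e3 := ht3 t (hT3.trans ht)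
    have e4 : 4 * ε = μ - m := by rw [hε]; ring
    linarith [e3.1, e3.2]
  have hmonoE : MonotoneOn (fun t => Pool.Agent.PenroseRound.Ef φ r U V t - 2 * ε * t)
      (Ici T) := by
    refine monotoneOn_of_hasDerivWithinAt_nonneg (convex_Ici T)
      (f' := fun t => (Real.exp t * (1 / 4)
        * (mn fun ω => Pool.Agent.PenroseRound.Df φ r U V (pt t ω))
      + Real.exp t * (1 / 4) * mn fun ω => Real.exp t
        * rd (Pool.Agent.PenroseRound.Df φ r U V) (pt t ω)) - 2 * ε * 1)
      ?_ ?_ ?_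
    · exact fun t _ => ((hder t).sub ((hasDerivAt_id t).const_mul
        (2 * ε))).continuousAt.continuousWithinAt
    · exact fun t _ => ((hder t).sub ((hasDerivAt_id t).const_mul
        (2 * ε))).hasDerivWithinAt
    · intro t ht
      rw [interior_Ici] at ht
      have := hlow t (le_of_lt ht)
      linarith
  set t4 := T + (2 * C + 1) / (2 * ε) with ht4
  have hC0 : 0 ≤ C := (abs_nonneg _).trans (hC T hT2)
  have hle : T ≤ t4 := by
    rw [ht4]
    have : 0 ≤ (2 * C + 1) / (2 * ε) := by positivity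
    linarith
  have h5 := hmonoE self_mem_Ici (mem_Ici.2 hle) hle
  have h6 := abs_le.1 (hC T hT2)
  have h7 := abs_le.1 (hC t4 (hT2.trans hle))
  have h8 : 2 * ε * t4 = 2 * ε * T + (2 * C + 1) := by
    rw [ht4]
    field_simp
  simp only at h5
  linarith [h6.1, h6.2, h7.1, h7.2]

/-- There is a marginal point whose area radius is at most twice the total mass. -/
theorem exists_marginal (hS : ExpandingSpacetime W F γ r) (hT : IsTwoEndedSlice W F γ r U V)
    {m : ℝ} (hm : IsTotalMass (inducedMetric F γ r U V) m) :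
    ∃ x0 : E3, x0 ∈ reg ∧ (dU r (U x0) (V x0) = 0 ∨ dV r (U x0) (V x0) = 0) ∧
      r (U x0) (V x0) ≤ 2 * m := by
  have hA := afSlice hS hT
  have hm' := isTotalMass_gm hS hT hm
  obtain ⟨t1, ht1⟩ := Pool.Agent.PenroseRound.exists_untrapped hA
  have : Nonempty Sp := (NormedSpace.sphere_nonempty.2 zero_le_one).to_subtype
  have cM := cont_comp_pt' (cont_Mb hS hT) t1
  obtain ⟨ω, -, hω⟩ := (isCompact_univ (X := Sp)).exists_isMinOn univ_nonempty cM.continuousOn
  set c0 := Mb F r U V (pt t1 ω) with hc0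
  have hc0m : c0 ≤ m := by
    refine le_of_forall_pos_sub_le fun δ hδ => ?_
    obtain ⟨t2, ht2⟩ := mean_Mf_ge hS hT hδ
    refine const_le_mass_mean hA hm' (t1 := max t1 t2) fun t ht => ?_
    have h1 := ht2 t ((le_max_right _ _).trans ht)
    have h2 : c0 ≤ mn fun ω₁ => Mb F r U V (pt t ω₁) := by
      rw [← mn_const c0]
      refine mn_mono (integrable_const _)
        (integrable_sph (cont_comp_pt' (cont_Mb hS hT) t)) fun ω₁ => ?_
      have h2 : c0 ≤ Mb F r U V (pt t1 ω₁) := hω (mem_univ ω₁)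
      exact h2.trans (Mb_mono hS hT ((le_max_left _ _).trans ht) ω₁ fun s hs _ =>
        ⟨(ht1 s hs.le ω₁).1.le, (ht1 s hs.le ω₁).2.le⟩)
    linarith
  -- the function detecting untrapped points
  set φ : ℝ → ℝ := fun t => min (-dU r (U (pt t ω)) (V (pt t ω)))
    (dV r (U (pt t ω)) (V (pt t ω))) with hφ
  have hinj : Continuous fun t : ℝ => ((t, ω) : ℝ × Sp) := by fun_prop
  have hcφ : Continuous φ :=
    ((cont_comp_pt (Pool.Agent.PenroseRound.cont_dU hA)).comp hinj).neg.min
      ((cont_comp_pt (Pool.Agent.PenroseRound.cont_dV hA)).comp hinj)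
  have hpos : ∀ t, t1 ≤ t → 0 < φ t := fun t ht => by
    have := ht1 t ht ω
    exact lt_min (by linarith [this.1]) this.2
  have hex : ∃ T0 < t1, φ T0 ≤ 0 := by
    by_contra hcon
    push Not at hcon
    have hanti : ∀ t, t < t1 → r (U (pt t ω)) (V (pt t ω)) ≤ r (U (pt t1 ω)) (V (pt t1 ω)) := by
      intro t ht
      have hmono : MonotoneOn (fun s => r (U (pt s ω)) (V (pt s ω))) (Icc t t1) := by
        refine monotoneOn_of_hasDerivWithinAt_nonneg (convex_Icc t t1)
          (fun s _ => (hder_r hA s ω).continuousAt.continuousWithinAt)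
          (fun s _ => (hder_r hA s ω).hasDerivWithinAt) ?_
        intro s hs
        rw [interior_Icc] at hs
        have h1 := hcon s hs.2
        have h2 : 0 < -dU r (U (pt s ω)) (V (pt s ω)) := lt_of_lt_of_le h1 (min_le_left _ _)
        have h3 : 0 < dV r (U (pt s ω)) (V (pt s ω)) := lt_of_lt_of_le h1 (min_le_right _ _)
        have ho := hT.outward _ (pt_ne_zero s ω)
        have ho1 : ru U (s, ω) < 0 := by rw [ru_eq]; exact ho.1
        have ho2 : 0 < ru V (s, ω) := by rw [ru_eq]; exact ho.2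
        have hE := Real.exp_pos s
        have e1 : 0 ≤ dU r (U (pt s ω)) (V (pt s ω)) * (Real.exp s * ru U (s, ω)) :=
          mul_nonneg_of_nonpos_of_nonpos (by linarith)
            (mul_nonpos_of_nonneg_of_nonpos hE.le ho1.le)
        have e2 : 0 ≤ dV r (U (pt s ω)) (V (pt s ω)) * (Real.exp s * ru V (s, ω)) :=
          mul_nonneg h3.le (mul_nonneg hE.le ho2.le)
        exact add_nonneg e1 e2
      exact hmono (left_mem_Icc.2 ht.le) (right_mem_Icc.2 ht.le) ht.le
    have hlim := hT.r_inner ω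
    have h4 : ∀ᶠ ρ : ℝ in 𝓝[>] 0, r (U (pt t1 ω)) (V (pt t1 ω)) + 1
        ≤ r (U (ρ • (ω : E3))) (V (ρ • (ω : E3))) := hlim.eventually_ge_atTop _
    have h5 : ∀ᶠ ρ : ℝ in 𝓝[>] 0, ρ < Real.exp t1 :=
      (eventually_lt_nhds (Real.exp_pos t1)).filter_mono nhdsWithin_le_nhds
    obtain ⟨ρ, h6, h7, h8⟩ := (h4.and (h5.and self_mem_nhdsWithin)).exists
    have h8' : (0 : ℝ) < ρ := h8
    have h9 := hanti (Real.log ρ) ((Real.log_lt_iff_lt_exp h8').2 h7)
    rw [pt_eq_smul (Real.log ρ), Real.exp_log h8'] at h9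
    linarith
  obtain ⟨T0, hT0, hφT0⟩ := hex
  obtain ⟨t0, ht0, hz, hgt⟩ := exists_last_zero hcφ.continuousOn hφT0
    (eventually_atTop.2 ⟨t1, hpos⟩)
  have ht01 : t0 ≤ t1 := by
    by_contra hcon
    push Not at hcon
    exact absurd hz (hpos t0 hcon.le).ne'
  have hor : dU r (U (pt t0 ω)) (V (pt t0 ω)) = 0 ∨ dV r (U (pt t0 ω)) (V (pt t0 ω)) = 0 := by
    rcases min_choice (-dU r (U (pt t0 ω)) (V (pt t0 ω))) (dV r (U (pt t0 ω)) (V (pt t0 ω)))
      with h | h
    · left
      have : φ t0 = -dU r (U (pt t0 ω)) (V (pt t0 ω)) := h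
      linarith
    · right
      have : φ t0 = dV r (U (pt t0 ω)) (V (pt t0 ω)) := h
      linarith
  have hmass : Mb F r U V (pt t0 ω) ≤ c0 := by
    refine Mb_mono hS hT ht01 ω fun s hs _ => ?_
    have h1 := hgt s hs
    have h2 : 0 < -dU r (U (pt s ω)) (V (pt s ω)) := lt_of_lt_of_le h1 (min_le_left _ _)
    have h3 : 0 < dV r (U (pt s ω)) (V (pt s ω)) := lt_of_lt_of_le h1 (min_le_right _ _)
    exact ⟨by linarith, h3.le⟩
  have hM0 : Mb F r U V (pt t0 ω) = r (U (pt t0 ω)) (V (pt t0 ω)) / 2 := by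
    unfold Mb ms
    rcases hor with h | h <;> rw [h] <;> ring
  exact ⟨pt t0 ω, pt_mem t0 ω, hor, by linarith⟩

end

end Pool.Agent.PenroseShear
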