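import Pool.Agent.PenroseShear.Algebra
import Pool.Agent.PenroseRound.Area

/-! The deviation from roundness does not contribute to the total mass. -/

open MeasureTheory Filter Topology Set Asymptotics

namespace Pool.Agent.PenroseShear

open Pool.Agent.PenroseSph Pool.Agent.PenroseSlice

open Pool.Agent.PenroseRound (gm AFSlice Bf b1 b1d Bd sr ru ph Mf ne_of_reg reg_eq memW)

section

variable {W : Set (ℝ × ℝ)} {F : ℝ → ℝ → E3 → ℝ} {γ : ℝ → ℝ → E3 → Matrix (Fin 3) (Fin 3) ℝ}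
  {r : ℝ → ℝ → ℝ} {U V : E3 → ℝ}

theorem cd_comp3 {H : ℝ → ℝ → E3 → ℝ}
    (hH : ContDiffOn ℝ 1 (fun p : ℝ × ℝ × E3 => H p.1 p.2.1 (‖p.2.2‖⁻¹ • p.2.2))
      {p | (p.1, p.2.1) ∈ W ∧ p.2.2 ≠ 0}) (hT : IsTwoEndedSlice W F γ r U V) :
    ContDiffOn ℝ 1 (fun x => H (U x) (V x) (‖x‖⁻¹ • x)) reg := by
  have hU : ContDiffOn ℝ 1 U reg := (reg_eq ▸ hT.contDiff_U : ContDiffOn ℝ 2 U reg).of_le
    (by norm_num)
  have hV : ContDiffOn ℝ 1 V reg := (reg_eq ▸ hT.contDiff_V : ContDiffOn ℝ 2 V reg).of_le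
    (by norm_num)
  have h1 : ContDiffOn ℝ 1 (fun x : E3 => (U x, V x, x)) reg :=
    hU.prodMk (hV.prodMk contDiffOn_id)
  exact hH.comp h1 fun x hx => ⟨hT.mem x (ne_of_reg hx), ne_of_reg hx⟩

theorem cd_r1 (hS : ExpandingSpacetime W F γ r) (hT : IsTwoEndedSlice W F γ r U V) :
    ContDiffOn ℝ 1 (fun x => r (U x) (V x)) reg := by
  have hU : ContDiffOn ℝ 2 U reg := reg_eq ▸ hT.contDiff_U
  have hV : ContDiffOn ℝ 2 V reg := reg_eq ▸ hT.contDiff_V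
  have h1 : ContDiffOn ℝ 2 (fun x => r (U x) (V x)) reg :=
    hS.contDiff_r.comp (hU.prodMk hV) fun x hx => hT.mem x (ne_of_reg hx)
  exact h1.of_le (by norm_num)

theorem cd_B1 (hS : ExpandingSpacetime W F γ r) (hT : IsTwoEndedSlice W F γ r U V) :
    ContDiffOn ℝ 1 (Bf r U V) reg :=
  ((cd_r1 hS hT).div Pool.Agent.PenroseRound.cd_norm fun _ hx => ne_of_gt hx).pow 2

theorem cd_E (hS : ExpandingSpacetime W F γ r) (hT : IsTwoEndedSlice W F γ r U V)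
    (i j : Fin 3) : ContDiffOn ℝ 1 (fun x => roundDefect γ r U V x i j) reg := by
  have hγ := cd_comp3 (H := fun u v ξ => γ u v ξ i j) (hS.contDiff_γ i j) hT
  have hn := fun i => contDiffOn_nu (ρ₁ := 0) le_rfl i
  exact (cd_B1 hS hT).mul (hγ.sub (contDiffOn_const.sub ((hn i).mul (hn j))))

theorem cd_g (hS : ExpandingSpacetime W F γ r) (hT : IsTwoEndedSlice W F γ r U V)
    (i j : Fin 3) : ContDiffOn ℝ 1 (fun x => inducedMetric F γ r U V x i j) reg := by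
  have hF := cd_comp3 (H := F) hS.contDiff_F hT
  have hγ := cd_comp3 (H := fun u v ξ => γ u v ξ i j) (hS.contDiff_γ i j) hT
  have hU : ContDiffOn ℝ 2 U reg := reg_eq ▸ hT.contDiff_U
  have hV : ContDiffOn ℝ 2 V reg := reg_eq ▸ hT.contDiff_V
  have hU1 := fun i => Pool.Agent.PenroseRound.cd_pd hU i
  have hV1 := fun i => Pool.Agent.PenroseRound.cd_pd hV i
  have h1 : ContDiffOn ℝ 1 (fun x => -(F (U x) (V x) (‖x‖⁻¹ • x)
      * (pd i U x * pd j V x + pd i V x * pd j U x))) reg :=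
    (hF.mul (((hU1 i).mul (hV1 j)).add ((hV1 i).mul (hU1 j)))).neg
  exact (h1.div_const 2).add ((cd_B1 hS hT).mul hγ)

theorem gm_eq_sub (x : E3) (i j : Fin 3) :
    gm (ph F U V) r U V x i j = inducedMetric F γ r U V x i j - roundDefect γ r U V x i j := by
  unfold gm inducedMetric roundDefect ph
  simp only [Matrix.of_apply]
  ring

theorem pd_gm {x : E3} (hS : ExpandingSpacetime W F γ r) (hT : IsTwoEndedSlice W F γ r U V)
    (hx : x ∈ reg) (i j k : Fin 3) :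
    pd k (fun y => gm (ph F U V) r U V y i j) x
      = pd k (fun y => inducedMetric F γ r U V y i j) x
        - pd k (fun y => roundDefect γ r U V y i j) x := by
  have h1 : (fun y => gm (ph F U V) r U V y i j) = fun y => inducedMetric F γ r U V y i j
      - roundDefect γ r U V y i j := by
    funext y
    exact gm_eq_sub (γ := γ) y i j
  rw [h1, pd_sub (diff_of_cd (cd_g hS hT i j) hx) (diff_of_cd (cd_E hS hT i j) hx)]

theorem afSlice (hS : ExpandingSpacetime W F γ r) (hT : IsTwoEndedSlice W F γ r U V) :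
    AFSlice W (ph F U V) r U V where
  isOpen := hS.isOpen
  r_pos := hS.r_pos
  contDiff_r := hS.contDiff_r
  φ_pos x hx := hS.F_pos _ _ (hT.mem x (ne_of_reg hx))
    ⟨_, Pool.Agent.PenroseRound.sph_of (ne_of_reg hx)⟩
  cd_φ := cd_comp3 (H := F) hS.contDiff_F hT
  contDiff_U := hT.contDiff_U
  contDiff_V := hT.contDiff_V
  mem := hT.mem
  outward := hT.outward
  decay := by
    obtain ⟨C, R, hC⟩ := hT.decay
    refine ⟨2 * C, max R 1, fun x hx => ?_⟩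
    have hR : R ≤ ‖x‖ := (le_max_left _ _).trans hx
    have h1 : (1 : ℝ) ≤ ‖x‖ := (le_max_right _ _).trans hx
    have hx0 : 0 < ‖x‖ := by linarith
    obtain ⟨hs, hg⟩ := hC x hR
    have hC0 : 0 ≤ C / ‖x‖ := (abs_nonneg _).trans hs
    have hC0' : 0 ≤ C := by
      have := mul_nonneg hC0 hx0.le
      rwa [div_mul_cancel₀ _ hx0.ne'] at this
    have e1 : 2 * C / ‖x‖ = C / ‖x‖ + C / ‖x‖ := by ring
    have e2 : 2 * C / ‖x‖ ^ 2 = C / ‖x‖ ^ 2 + C / ‖x‖ ^ 2 := by ring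
    refine ⟨by rw [e1]; linarith, fun i j => ⟨?_, fun k => ?_⟩⟩
    · rw [gm_eq_sub (γ := γ), e1]
      have a1 := (hg i j).1
      have a2 := (hg i j).2.1
      calc |inducedMetric F γ r U V x i j - roundDefect γ r U V x i j
            - (1 : Matrix (Fin 3) (Fin 3) ℝ) i j|
          = |(inducedMetric F γ r U V x i j - (1 : Matrix (Fin 3) (Fin 3) ℝ) i j)
            - roundDefect γ r U V x i j| := by congr 1; ring
        _ ≤ _ := (abs_sub _ _).trans (add_le_add a1 a2)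
    · rw [pd_gm hS hT hx0, e2]
      exact (abs_sub _ _).trans (add_le_add ((hg i j).2.2 k).1 ((hg i j).2.2 k).2)

/-- components of the defect along rays -/
noncomputable def Ec (γ : ℝ → ℝ → E3 → Matrix (Fin 3) (Fin 3) ℝ) (r : ℝ → ℝ → ℝ) (U V : E3 → ℝ)
    (i j : Fin 3) (p : ℝ × Sp) : ℝ := roundDefect γ r U V (pt p.1 p.2) i j

/-- their derivatives -/
noncomputable def Ecd (γ : ℝ → ℝ → E3 → Matrix (Fin 3) (Fin 3) ℝ) (r : ℝ → ℝ → ℝ)
    (U V : E3 → ℝ) (i j : Fin 3) (p : ℝ × Sp) : ℝ :=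
  Real.exp p.1 * rd (fun y => roundDefect γ r U V y i j) (pt p.1 p.2)

theorem hder_E1 (hS : ExpandingSpacetime W F γ r) (hT : IsTwoEndedSlice W F γ r U V)
    (i j : Fin 3) (t : ℝ) (ω : Sp) :
    HasDerivAt (fun s => Ec γ r U V i j (s, ω)) (Ecd γ r U V i j (t, ω)) t :=
  hasDerivAt_comp_pt (diff_of_cd (cd_E hS hT i j) (pt_mem t ω))

theorem Ec_O (hT : IsTwoEndedSlice W F γ r U V) (i j : Fin 3) :
    (fun p => Ec γ r U V i j p) =O[li] ee := by
  obtain ⟨C, R, hC⟩ := hT.decay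
  refine IsBigO.of_bound C ?_
  filter_upwards [Pool.Agent.PenroseRound.eventually_large R] with p hp
  have h1 := ((hC _ hp).2 i j).2.1
  rw [norm_pt] at h1
  unfold Ec ee
  rw [Real.norm_eq_abs, Real.norm_eq_abs, Real.abs_exp, Real.exp_neg, ← div_eq_mul_inv]
  exact h1

theorem Ecd_O (hT : IsTwoEndedSlice W F γ r U V) (i j : Fin 3) :
    (fun p => Ecd γ r U V i j p) =O[li] ee := by
  obtain ⟨C, R, hC⟩ := hT.decay
  refine IsBigO.of_bound (3 * C) ?_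
  filter_upwards [Pool.Agent.PenroseRound.eventually_large R] with p hp
  have h1 := fun k => (((hC _ hp).2 i j).2.2 k).2
  simp only [norm_pt] at h1
  have hE := Real.exp_pos p.1
  unfold Ecd ee
  rw [Real.norm_eq_abs, Real.norm_eq_abs, Real.abs_exp, Real.exp_neg, abs_mul, Real.abs_exp]
  have h2 : |rd (fun y => roundDefect γ r U V y i j) (pt p.1 p.2)|
      ≤ 3 * (C / Real.exp p.1 ^ 2) := by
    unfold rd
    refine (Finset.abs_sum_le_sum_abs _ _).trans ?_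
    have h3 : ∀ k : Fin 3, |(pt p.1 p.2 k / ‖pt p.1 p.2‖) *
        pd k (fun y => roundDefect γ r U V y i j) (pt p.1 p.2)| ≤ C / Real.exp p.1 ^ 2 := by
      intro k
      rw [abs_mul, pt_div_norm]
      have h4 := Pool.Agent.PenroseRound.abs_nu_le_one k p
      have h5 := h1 k
      calc |(p.2 : E3) k| * |pd k (fun y => roundDefect γ r U V y i j) (pt p.1 p.2)|
          ≤ 1 * |pd k (fun y => roundDefect γ r U V y i j) (pt p.1 p.2)| :=
            mul_le_mul_of_nonneg_right h4 (abs_nonneg _)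
        _ ≤ C / Real.exp p.1 ^ 2 := by rw [one_mul]; exact h5
    rw [Fin.sum_univ_three]
    linarith [h3 0, h3 1, h3 2]
  calc Real.exp p.1 * |rd (fun y => roundDefect γ r U V y i j) (pt p.1 p.2)|
      ≤ Real.exp p.1 * (3 * (C / Real.exp p.1 ^ 2)) := mul_le_mul_of_nonneg_left h2 hE.le
    _ = 3 * C * (Real.exp p.1)⁻¹ := by field_simp

/-- the matrix `γ` along rays -/
theorem dir_pt (t : ℝ) (ω : Sp) : ‖pt t ω‖⁻¹ • pt t ω = (ω : E3) := by
  rw [norm_pt]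
  unfold pt
  rw [smul_smul, inv_mul_cancel₀ (Real.exp_pos t).ne', one_smul]

theorem Ec_eq (i j : Fin 3) (p : ℝ × Sp) : Ec γ r U V i j p = Bf r U V (pt p.1 p.2)
    * (γ (U (pt p.1 p.2)) (V (pt p.1 p.2)) p.2 i j - (dl i j - nu i p * nu j p)) := by
  unfold Ec roundDefect Bf
  simp only [Matrix.of_apply, pt_div_norm, dir_pt]
  rfl

/-- Properties of `γ` at a point. -/
theorem gamma_facts (hS : ExpandingSpacetime W F γ r) {u v : ℝ} (h : (u, v) ∈ W) (ω : Sp) :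
    γ u v ω 1 0 = γ u v ω 0 1 ∧ γ u v ω 2 0 = γ u v ω 0 2 ∧ γ u v ω 2 1 = γ u v ω 1 2 ∧
    (γ u v ω 0 0 * (ω : E3) 0 + γ u v ω 0 1 * (ω : E3) 1 + γ u v ω 0 2 * (ω : E3) 2 = 0) ∧
    (γ u v ω 0 1 * (ω : E3) 0 + γ u v ω 1 1 * (ω : E3) 1 + γ u v ω 1 2 * (ω : E3) 2 = 0) ∧
    (γ u v ω 0 2 * (ω : E3) 0 + γ u v ω 1 2 * (ω : E3) 1 + γ u v ω 2 2 * (ω : E3) 2 = 0) ∧
    ((γ u v ω 0 0 * γ u v ω 1 1 - γ u v ω 0 1 * γ u v ω 0 1)
      + (γ u v ω 0 0 * γ u v ω 2 2 - γ u v ω 0 2 * γ u v ω 0 2)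
      + (γ u v ω 1 1 * γ u v ω 2 2 - γ u v ω 1 2 * γ u v ω 1 2) = 1) ∧
    0 < γ u v ω 0 0 + γ u v ω 1 1 + γ u v ω 2 2 := by
  have hs := hS.γ_symm u v h ω
  have s1 : γ u v ω 1 0 = γ u v ω 0 1 := hs.apply 0 1
  have s2 : γ u v ω 2 0 = γ u v ω 0 2 := hs.apply 0 2
  have s3 : γ u v ω 2 1 = γ u v ω 1 2 := hs.apply 1 2
  have hn := nu_sq ((0, ω) : ℝ × Sp)
  unfold nu at hn
  simp only at hn
  have n0 := hS.γ_normal u v h ω 0
  have n1 := hS.γ_normal u v h ω 1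
  have n2 := hS.γ_normal u v h ω 2
  simp only [Fin.sum_univ_three] at n0 n1 n2
  rw [s1] at n1
  rw [s2, s3] at n2
  have hdet := hS.γ_det u v h ω
  rw [Matrix.det_fin_three] at hdet
  simp only [Matrix.add_apply, Matrix.of_apply] at hdet
  rw [s1, s2, s3] at hdet
  have he := cof_eq hn n0 n1 n2 (by linear_combination hdet)
  refine ⟨s1, s2, s3, n0, n1, n2, he, ?_⟩
  have hp := hS.γ_pos u v h ω
  have p0 := hp.diag_pos (i := 0)
  have p1 := hp.diag_pos (i := 1)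
  have p2 := hp.diag_pos (i := 2)
  simp only [Matrix.add_apply, Matrix.of_apply] at p0 p1 p2
  set a := γ u v ω 0 0
  set d := γ u v ω 1 1
  set f := γ u v ω 2 2
  have ht : -1 < a + d + f := by nlinarith
  have hsq : 2 ≤ (a + d + f) ^ 2 := by
    nlinarith [sq_nonneg a, sq_nonneg d, sq_nonneg f, sq_nonneg (γ u v ω 0 1),
      sq_nonneg (γ u v ω 0 2), sq_nonneg (γ u v ω 1 2)]
  by_contra hcon
  push Not at hcon
  nlinarith

/-- The trace of the defect. -/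
noncomputable def yE (γ : ℝ → ℝ → E3 → Matrix (Fin 3) (Fin 3) ℝ) (r : ℝ → ℝ → ℝ) (U V : E3 → ℝ)
    (p : ℝ × Sp) : ℝ := Ec γ r U V 0 0 p + Ec γ r U V 1 1 p + Ec γ r U V 2 2 p

/-- its derivative -/
noncomputable def yEd (γ : ℝ → ℝ → E3 → Matrix (Fin 3) (Fin 3) ℝ) (r : ℝ → ℝ → ℝ) (U V : E3 → ℝ)
    (p : ℝ × Sp) : ℝ := Ecd γ r U V 0 0 p + Ecd γ r U V 1 1 p + Ecd γ r U V 2 2 p

/-- the squared length of the defect -/
noncomputable def qE (γ : ℝ → ℝ → E3 → Matrix (Fin 3) (Fin 3) ℝ) (r : ℝ → ℝ → ℝ) (U V : E3 → ℝ)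
    (p : ℝ × Sp) : ℝ := ∑ i, ∑ j, Ec γ r U V i j p * Ec γ r U V i j p

/-- half its derivative -/
noncomputable def qEd (γ : ℝ → ℝ → E3 → Matrix (Fin 3) (Fin 3) ℝ) (r : ℝ → ℝ → ℝ) (U V : E3 → ℝ)
    (p : ℝ × Sp) : ℝ := ∑ i, ∑ j, Ec γ r U V i j p * Ecd γ r U V i j p

theorem B_pos (hS : ExpandingSpacetime W F γ r) (hT : IsTwoEndedSlice W F γ r U V)
    (p : ℝ × Sp) : 0 < Bf r U V (pt p.1 p.2) := by
  unfold Bf
  have h1 := hS.r_pos _ _ (hT.mem _ (pt_ne_zero p.1 p.2))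
  have h2 : 0 < ‖pt p.1 p.2‖ := norm_pos_iff.2 (pt_ne_zero p.1 p.2)
  positivity

theorem y_rel (hS : ExpandingSpacetime W F γ r) (hT : IsTwoEndedSlice W F γ r U V)
    (p : ℝ × Sp) : yE γ r U V p * (2 * Bf r U V (pt p.1 p.2) + yE γ r U V p) = qE γ r U V p := by
  obtain ⟨s1, s2, s3, n0, n1, n2, he, -⟩ :=
    gamma_facts hS (hT.mem _ (pt_ne_zero p.1 p.2)) p.2
  have hn := nu_sq p
  unfold yE qE
  simp only [Ec_eq, Fin.sum_univ_three, dl, Fin.isValue, ↓reduceIte, Fin.reduceEq, zero_ne_one,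
    one_ne_zero]
  unfold nu at hn ⊢
  rw [s1, s2, s3]
  set a := γ (U (pt p.1 p.2)) (V (pt p.1 p.2)) p.2 0 0
  set b := γ (U (pt p.1 p.2)) (V (pt p.1 p.2)) p.2 0 1
  set c := γ (U (pt p.1 p.2)) (V (pt p.1 p.2)) p.2 0 2
  set d := γ (U (pt p.1 p.2)) (V (pt p.1 p.2)) p.2 1 1
  set e := γ (U (pt p.1 p.2)) (V (pt p.1 p.2)) p.2 1 2
  set f := γ (U (pt p.1 p.2)) (V (pt p.1 p.2)) p.2 2 2
  set x := (p.2 : E3) 0
  set y := (p.2 : E3) 1
  set z := (p.2 : E3) 2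
  set β := Bf r U V (pt p.1 p.2)
  grind

theorem y_nonneg (hS : ExpandingSpacetime W F γ r) (hT : IsTwoEndedSlice W F γ r U V)
    (p : ℝ × Sp) : 0 ≤ yE γ r U V p := by
  obtain ⟨s1, s2, s3, n0, n1, n2, he, ht⟩ :=
    gamma_facts hS (hT.mem _ (pt_ne_zero p.1 p.2)) p.2
  have hB := B_pos hS hT p
  have hn := nu_sq p
  have h1 : 2 * Bf r U V (pt p.1 p.2) + yE γ r U V p = Bf r U V (pt p.1 p.2)
      * (γ (U (pt p.1 p.2)) (V (pt p.1 p.2)) p.2 0 0
        + γ (U (pt p.1 p.2)) (V (pt p.1 p.2)) p.2 1 1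
        + γ (U (pt p.1 p.2)) (V (pt p.1 p.2)) p.2 2 2) := by
    unfold yE
    simp only [Ec_eq, dl, ↓reduceIte]
    linear_combination (Bf r U V (pt p.1 p.2)) * hn
  have h2 : 0 < 2 * Bf r U V (pt p.1 p.2) + yE γ r U V p := by
    rw [h1]; exact mul_pos hB ht
  have h3 : 0 ≤ qE γ r U V p := by
    unfold qE
    exact Finset.sum_nonneg fun i _ => Finset.sum_nonneg fun j _ => mul_self_nonneg _
  rw [← y_rel hS hT p] at h3
  exact nonneg_of_mul_nonneg_left h3 h2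

end

end Pool.Agent.PenroseShear
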