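import Pool.Agent.PenroseShear.Mass

/-! The deviation from roundness does not contribute to the total mass (conclusion). -/

open MeasureTheory Filter Topology Set Asymptotics

namespace Pool.Agent.PenroseShear

open Pool.Agent.PenroseSph Pool.Agent.PenroseSlice

open Pool.Agent.PenroseRound (gm AFSlice Bf b1 b1d Bd sr ru ph Mf ne_of_reg reg_eq memW)

section

variable {W : Set (ℝ × ℝ)} {F : ℝ → ℝ → E3 → ℝ} {γ : ℝ → ℝ → E3 → Matrix (Fin 3) (Fin 3) ℝ}
  {r : ℝ → ℝ → ℝ} {U V : E3 → ℝ}

theorem hder_y (hS : ExpandingSpacetime W F γ r) (hT : IsTwoEndedSlice W F γ r U V)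
    (t : ℝ) (ω : Sp) :
    HasDerivAt (fun s => yE γ r U V (s, ω)) (yEd γ r U V (t, ω)) t :=
  ((hder_E1 hS hT 0 0 t ω).add (hder_E1 hS hT 1 1 t ω)).add (hder_E1 hS hT 2 2 t ω)

theorem hder_q (hS : ExpandingSpacetime W F γ r) (hT : IsTwoEndedSlice W F γ r U V)
    (t : ℝ) (ω : Sp) :
    HasDerivAt (fun s => qE γ r U V (s, ω)) (2 * qEd γ r U V (t, ω)) t := by
  have h1 : HasDerivAt (fun s => ∑ i, ∑ j, Ec γ r U V i j (s, ω) * Ec γ r U V i j (s, ω))
      (∑ i, ∑ j, (Ecd γ r U V i j (t, ω) * Ec γ r U V i j (t, ω)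
        + Ec γ r U V i j (t, ω) * Ecd γ r U V i j (t, ω))) t :=
    HasDerivAt.fun_sum fun i _ => HasDerivAt.fun_sum fun j _ =>
      (hder_E1 hS hT i j t ω).mul (hder_E1 hS hT i j t ω)
  refine h1.congr_deriv ?_
  unfold qEd
  rw [Finset.mul_sum]
  refine Finset.sum_congr rfl fun i _ => ?_
  rw [Finset.mul_sum]
  refine Finset.sum_congr rfl fun j _ => ?_
  ring

theorem yd_rel (hS : ExpandingSpacetime W F γ r) (hT : IsTwoEndedSlice W F γ r U V)
    (p : ℝ × Sp) : yEd γ r U V p * (Bf r U V (pt p.1 p.2) + yE γ r U V p)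
      = qEd γ r U V p - Bd r U V p * yE γ r U V p := by
  obtain ⟨t, ω⟩ := p
  have hy := hder_y hS hT t ω
  have hB : HasDerivAt (fun s => Bf r U V (pt s ω)) (Bd r U V (t, ω)) t :=
    Pool.Agent.PenroseRound.hder_B (afSlice hS hT) t ω
  have h1 := hy.mul ((hB.const_mul 2).add hy)
  have h2 := hder_q hS hT t ω
  have h3 : (fun s => yE γ r U V (s, ω)) * ((fun s => 2 * Bf r U V (pt s ω))
      + fun s => yE γ r U V (s, ω)) = fun s => qE γ r U V (s, ω) := by
    funext s
    exact y_rel hS hT (s, ω)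
  rw [h3] at h1
  have h4 := h1.unique h2
  simp only [Pi.add_apply] at h4
  linarith

theorem expO {f : ℝ × Sp → ℝ} (hf : f =O[li] fun p => ee p * ee p) :
    (fun p => Real.exp p.1 * f p) =O[li] ee := by
  have h1 := (isBigO_refl (fun p : ℝ × Sp => Real.exp p.1) li).mul hf
  refine h1.congr' EventuallyEq.rfl (Eventually.of_forall fun p => ?_)
  simp only [ee]
  rw [← mul_assoc, ← Real.exp_add]
  simp

theorem Binv_O (hS : ExpandingSpacetime W F γ r) (hT : IsTwoEndedSlice W F γ r U V) :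
    (fun p : ℝ × Sp => (Bf r U V (pt p.1 p.2))⁻¹) =O[li] fun _ => (1 : ℝ) := by
  have h1 := (Pool.Agent.PenroseRound.B_O (afSlice hS hT)).trans_tendsto tendsto_ee
  have h2 : Tendsto (fun p : ℝ × Sp => Bf r U V (pt p.1 p.2)) li (𝓝 1) := by
    simpa using h1.add_const 1
  exact (h2.inv₀ one_ne_zero).isBigO_one ℝ

theorem qE_O (hT : IsTwoEndedSlice W F γ r U V) :
    (fun p => qE γ r U V p) =O[li] fun p => ee p * ee p := by
  unfold qE
  exact IsBigO.fun_sum fun i _ => IsBigO.fun_sum fun j _ => (Ec_O hT i j).mul (Ec_O hT i j)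

theorem qEd_O (hT : IsTwoEndedSlice W F γ r U V) :
    (fun p => qEd γ r U V p) =O[li] fun p => ee p * ee p := by
  unfold qEd
  exact IsBigO.fun_sum fun i _ => IsBigO.fun_sum fun j _ => (Ec_O hT i j).mul (Ecd_O hT i j)

theorem yE_O (hS : ExpandingSpacetime W F γ r) (hT : IsTwoEndedSlice W F γ r U V) :
    (fun p => yE γ r U V p) =O[li] fun p => ee p * ee p := by
  have h1 : (fun p => qE γ r U V p * (Bf r U V (pt p.1 p.2))⁻¹) =O[li]
      fun p => ee p * ee p := by
    simpa using (qE_O hT).mul (Binv_O hS hT)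
  refine IsBigO.trans (IsBigO.of_bound 1 (Eventually.of_forall fun p => ?_)) h1
  have hB := B_pos hS hT p
  have hy := y_nonneg hS hT p
  have hrel := y_rel hS hT p
  rw [Real.norm_eq_abs, Real.norm_eq_abs, abs_of_nonneg hy, one_mul]
  refine le_trans ?_ (le_abs_self _)
  rw [← div_eq_mul_inv, le_div_iff₀ hB, ← hrel]
  nlinarith [mul_nonneg hy hB.le, mul_nonneg hy hy]

theorem yEd_O (hS : ExpandingSpacetime W F γ r) (hT : IsTwoEndedSlice W F γ r U V) :
    (fun p => yEd γ r U V p) =O[li] fun p => ee p * ee p := by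
  have hBd := Pool.Agent.PenroseRound.Bd_O' (afSlice hS hT)
  have h0 : (fun p => Bd r U V p * yE γ r U V p) =O[li] fun p => ee p * ee p := by
    have h := hBd.mul (yE_O hS hT)
    have h2 : (fun p : ℝ × Sp => ee p * (ee p * ee p)) =O[li] fun p => ee p * ee p := by
      simpa using ee_O_one.mul (isBigO_refl (fun p : ℝ × Sp => ee p * ee p) li)
    exact h.trans h2
  have h1 : (fun p => (qEd γ r U V p - Bd r U V p * yE γ r U V p)
      * (Bf r U V (pt p.1 p.2))⁻¹) =O[li] fun p => ee p * ee p := by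
    simpa using ((qEd_O hT).sub h0).mul (Binv_O hS hT)
  refine IsBigO.trans (IsBigO.of_bound 1 (Eventually.of_forall fun p => ?_)) h1
  have hB := B_pos hS hT p
  have hy := y_nonneg hS hT p
  have hrel := yd_rel hS hT p
  rw [Real.norm_eq_abs, Real.norm_eq_abs, one_mul, abs_mul, abs_inv, abs_of_pos hB,
    ← div_eq_mul_inv, le_div_iff₀ hB, ← hrel, abs_mul]
  refine mul_le_mul_of_nonneg_left ?_ (abs_nonneg _)
  exact le_trans (by linarith) (le_abs_self _)

theorem radialPart_E (hS : ExpandingSpacetime W F γ r) (hT : IsTwoEndedSlice W F γ r U V)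
    (p : ℝ × Sp) : radialPart (roundDefect γ r U V) (pt p.1 p.2) = 0 := by
  obtain ⟨s1, s2, s3, n0, n1, n2, -, -⟩ :=
    gamma_facts hS (hT.mem _ (pt_ne_zero p.1 p.2)) p.2
  have hn := nu_sq p
  have h1 : radialPart (roundDefect γ r U V) (pt p.1 p.2)
      = ∑ i, ∑ j, Ec γ r U V i j p * nu i p * nu j p := by
    unfold radialPart Ec nu
    simp only [pt_div_norm]
  rw [h1]
  simp only [Ec_eq, Fin.sum_univ_three, dl, Fin.isValue, ↓reduceIte, Fin.reduceEq, zero_ne_one,
    one_ne_zero]
  unfold nu at hn ⊢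
  rw [s1, s2, s3]
  set a := γ (U (pt p.1 p.2)) (V (pt p.1 p.2)) p.2 0 0
  set b := γ (U (pt p.1 p.2)) (V (pt p.1 p.2)) p.2 0 1
  set c := γ (U (pt p.1 p.2)) (V (pt p.1 p.2)) p.2 0 2
  set d := γ (U (pt p.1 p.2)) (V (pt p.1 p.2)) p.2 1 1
  set e := γ (U (pt p.1 p.2)) (V (pt p.1 p.2)) p.2 1 2
  set f := γ (U (pt p.1 p.2)) (V (pt p.1 p.2)) p.2 2 2
  set x := (p.2 : E3) 0
  set y := (p.2 : E3) 1
  set z := (p.2 : E3) 2
  set β := Bf r U V (pt p.1 p.2)
  grind

theorem tang_sub (hS : ExpandingSpacetime W F γ r) (hT : IsTwoEndedSlice W F γ r U V)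
    (p : ℝ × Sp) : tangentialTrace (inducedMetric F γ r U V) (pt p.1 p.2)
      = tangentialTrace (gm (ph F U V) r U V) (pt p.1 p.2) + yE γ r U V p := by
  have h0 := radialPart_E hS hT p
  have h1 : radialPart (roundDefect γ r U V) (pt p.1 p.2)
      = radialPart (inducedMetric F γ r U V) (pt p.1 p.2)
        - radialPart (gm (ph F U V) r U V) (pt p.1 p.2) := by
    unfold radialPart
    simp only [gm_eq_sub (γ := γ), Fin.sum_univ_three]
    ring
  unfold tangentialTrace yE Ec
  have h2 : radialPart (inducedMetric F γ r U V) (pt p.1 p.2)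
      = radialPart (gm (ph F U V) r U V) (pt p.1 p.2) := by linarith
  rw [h2]
  simp only [gm_eq_sub (γ := γ), Fin.sum_univ_three]
  ring

theorem radial_eq (hS : ExpandingSpacetime W F γ r) (hT : IsTwoEndedSlice W F γ r U V)
    (p : ℝ × Sp) : radialPart (inducedMetric F γ r U V) (pt p.1 p.2)
      = radialPart (gm (ph F U V) r U V) (pt p.1 p.2) := by
  have h0 := radialPart_E hS hT p
  have h1 : radialPart (roundDefect γ r U V) (pt p.1 p.2)
      = radialPart (inducedMetric F γ r U V) (pt p.1 p.2)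
        - radialPart (gm (ph F U V) r U V) (pt p.1 p.2) := by
    unfold radialPart
    simp only [gm_eq_sub (γ := γ), Fin.sum_univ_three]
    ring
  linarith

theorem mass_diff (hS : ExpandingSpacetime W F γ r) (hT : IsTwoEndedSlice W F γ r U V)
    (t : ℝ) : massIntegral (gm (ph F U V) r U V) (Real.exp t)
      - massIntegral (inducedMetric F γ r U V) (Real.exp t)
      = mn fun ω => (1 / 4) * (Real.exp t * (yE γ r U V (t, ω) + yEd γ r U V (t, ω))) := by
  have hA := afSlice hS hT
  have hg1 := fun i j => cd_g hS hT i j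
  have hg2 := fun i j => Pool.Agent.PenroseRound.cd_metric hA i j
  have hT1 := cd_tangentialTrace hg1
  have hT2 := cd_tangentialTrace hg2
  have hA1 := cd_radialPart hg1
  have hA2 := cd_radialPart hg2
  have hrd : ∀ ω : Sp, Real.exp t * rd (tangentialTrace (inducedMetric F γ r U V)) (pt t ω)
      = Real.exp t * rd (tangentialTrace (gm (ph F U V) r U V)) (pt t ω)
        + yEd γ r U V (t, ω) := by
    intro ω
    have d1 := hasDerivAt_comp_pt (diff_of_cd hT1 (pt_mem t ω))
    have d2 := hasDerivAt_comp_pt (diff_of_cd hT2 (pt_mem t ω))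
    have d3 := d2.add (hder_y hS hT t ω)
    have e : (fun s => tangentialTrace (inducedMetric F γ r U V) (pt s ω))
        = (fun s => tangentialTrace (gm (ph F U V) r U V) (pt s ω))
          + fun s => yE γ r U V (s, ω) := by
      funext s
      exact tang_sub hS hT (s, ω)
    rw [e] at d1
    exact d1.unique d3
  rw [massIntegral_eq_mn hg1, massIntegral_eq_mn hg2, ← mn_mul, ← mn_mul, ← mn_sub]
  · congr 1
    funext ω
    have e1 := tang_sub hS hT (t, ω)
    have e2 := radial_eq hS hT (t, ω)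
    simp only at e1 e2
    rw [hrd ω, e1, e2]
    ring
  · refine integrable_sph ?_
    have c1 := cont_comp_pt' hA2.continuousOn t
    have c2 := cont_comp_pt' hT2.continuousOn t
    have c3 := cont_comp_pt' (cont_rd hT2) t
    fun_prop
  · refine integrable_sph ?_
    have c1 := cont_comp_pt' hA1.continuousOn t
    have c2 := cont_comp_pt' hT1.continuousOn t
    have c3 := cont_comp_pt' (cont_rd hT1) t
    fun_prop

/-- The comparison metric has the same total mass. -/
theorem isTotalMass_gm (hS : ExpandingSpacetime W F γ r) (hT : IsTwoEndedSlice W F γ r U V)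
    {m : ℝ} (hm : IsTotalMass (inducedMetric F γ r U V) m) :
    IsTotalMass (gm (ph F U V) r U V) m := by
  have h1 : (fun p : ℝ × Sp => (1 / 4) * (Real.exp p.1 * (yE γ r U V p + yEd γ r U V p)))
      =O[li] ee := (expO ((yE_O hS hT).add (yEd_O hS hT))).const_mul_left (1 / 4)
  obtain ⟨C, t1, hC⟩ := Pool.Agent.PenroseRound.bound_of_O h1
  have h2 : Tendsto (fun t : ℝ => massIntegral (gm (ph F U V) r U V) (Real.exp t)
      - massIntegral (inducedMetric F γ r U V) (Real.exp t)) atTop (𝓝 0) := by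
    have h3 : Tendsto (fun t : ℝ => C * Real.exp (-t)) atTop (𝓝 0) := by
      simpa using Real.tendsto_exp_neg_atTop_nhds_zero.const_mul C
    refine squeeze_zero_norm' ?_ h3
    filter_upwards [eventually_ge_atTop t1] with t ht
    rw [Real.norm_eq_abs, mass_diff hS hT]
    exact Pool.Agent.PenroseRound.abs_mn_le_of_bound (hC t ht)
  have h4 : Tendsto (fun ρ : ℝ => massIntegral (gm (ph F U V) r U V) ρ
      - massIntegral (inducedMetric F γ r U V) ρ) atTop (𝓝 0) := by
    have h5 := h2.comp Real.tendsto_log_atTop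
    refine h5.congr' ?_
    filter_upwards [eventually_gt_atTop 0] with ρ hρ
    simp only [Function.comp, Real.exp_log hρ]
  have hm' : Tendsto (massIntegral (inducedMetric F γ r U V)) atTop (𝓝 m) := hm
  have h6 := h4.add hm'
  simp only [sub_add_cancel, zero_add] at h6
  exact h6

end

end Pool.Agent.PenroseShear
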